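import Mathlib
import Pool.Agent.Helper47.LTFinal

open MeasureTheory FourierTransform Real
open scoped ENNReal ComplexConjugate

namespace Pool.Agent.Results.MP_114ef8_mp.Critical

section Definitions

/-! The definitions are made for a finite-dimensional real inner product space `X`
(the theorem is for `X = ℝⁿ`), with its Lebesgue measure `volume`. -/

variable {X : Type} [NormedAddCommGroup X] [InnerProductSpace ℝ X] [FiniteDimensional ℝ X]
  [MeasurableSpace X] [BorelSpace X]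

/-- Admissible potentials: `V₊ ∈ L¹` and `V₋` locally integrable. -/
structure Admissible (V : X → ℝ) : Prop where
  pos : Integrable fun x => max (V x) 0
  neg : LocallyIntegrable fun x => max (-V x) 0

/-- The symbol of `(-Δ)^s` for the Fourier transform with the kernel `e^{-2πi⟨x,ξ⟩}`:
`(2π|ξ|)^(2s)`. -/
noncomputable def symb (s : ℝ) (ξ : X) : ℝ := (2 * π * ‖ξ‖) ^ (2 * s)

/-- The complex Hilbert space `L²(X)`. -/
noncomputable abbrev L2 (X : Type) [NormedAddCommGroup X] [InnerProductSpace ℝ X] [FiniteDimensional ℝ X]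
    [MeasurableSpace X] [BorelSpace X] := Lp ℂ 2 (volume : Measure X)

/-- The domain of the quadratic form of `(-Δ)^s - V`: all `u ∈ L²` with
`∫ (2π|ξ|)^(2s) |û(ξ)|² dξ < ∞` and `∫ V₋ |u|² < ∞`. -/
def formDomain (s : ℝ) (V : X → ℝ) : Set (L2 X) :=
  {u | Integrable (fun ξ => symb s ξ * ‖(𝓕 u : L2 X) ξ‖ ^ 2) ∧
    Integrable (fun x => max (-V x) 0 * ‖u x‖ ^ 2)}

/-- The sesquilinear form of `(-Δ)^s - V` (conjugate linear in the first variable):
`∫ (2π|ξ|)^(2s) conj(v̂(ξ)) û(ξ) dξ - ∫ V(x) conj(v(x)) u(x) dx`. -/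
noncomputable def form (s : ℝ) (V : X → ℝ) (v u : L2 X) : ℂ :=
  (∫ ξ, (symb s ξ : ℂ) * (conj ((𝓕 v : L2 X) ξ) * (𝓕 u : L2 X) ξ)) -
    ∫ x, (V x : ℂ) * (conj (v x) * u x)

/-- `H u = E u` for the operator `H = (-Δ)^s - V` defined by its quadratic form: `u` belongs to
the form domain and `h(v,u) = E ⟨v,u⟩` for all `v` in the form domain. -/
def IsEigenfunction (s : ℝ) (V : X → ℝ) (E : ℝ) (u : L2 X) : Prop :=
  u ∈ formDomain s V ∧ ∀ v ∈ formDomain s V, form s V v u = E * inner ℂ v u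

/-- The eigenspace of `H = (-Δ)^s - V` for the number `E` (for admissible `V` and `2s > n` the set
of the solutions of `H u = E u` is already a linear subspace). -/
noncomputable def eigenspace (s : ℝ) (V : X → ℝ) (E : ℝ) : Submodule ℂ (L2 X) :=
  Submodule.span ℂ {u | IsEigenfunction s V E u}

/-- The multiplicity of `E` as an eigenvalue of `H = (-Δ)^s - V`, in `{0,1,2,…,∞}`
(it is `0` when `E` is not an eigenvalue). -/
noncomputable def multiplicity (s : ℝ) (V : X → ℝ) (E : ℝ) : ℕ∞ :=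
  Cardinal.toENat (Module.rank ℂ (eigenspace s V E))

/-- `tr H_-^γ = ∑_j |E_j|^γ` over the negative eigenvalues of `H = (-Δ)^s - V`, counted with
multiplicity, in `[0,∞]`. -/
noncomputable def traceNeg (s : ℝ) (V : X → ℝ) (γ : ℝ) : ℝ≥0∞ :=
  ∑' E : Set.Iio (0 : ℝ), ((multiplicity s V E : ℕ∞) : ℝ≥0∞) * ENNReal.ofReal (|(E : ℝ)| ^ γ)

end Definitions

/-- **Critical Lieb–Thirring inequality for `(-Δ)^s`, all `n ≥ 1` and all real `s > n/2`.**
There is a finite constant `L = L_{n,s}` with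
`tr ((-Δ)^s - V)_-^(1 - n/(2s)) ≤ L ∫ V₊` for all admissible `V`. -/
theorem result (n : ℕ) (hn : 1 ≤ n) (s : ℝ) (hs : (n : ℝ) / 2 < s) :
    ∃ L : NNReal, ∀ V : EuclideanSpace ℝ (Fin n) → ℝ, Admissible V →
      traceNeg s V (1 - n / (2 * s)) ≤ L * ∫⁻ x, ENNReal.ofReal (max (V x) 0) := by
  obtain ⟨L, hL⟩ := Helper47.LTFinal.final n hn s hs
  exact ⟨L, fun V hV => hL V ⟨hV.pos, hV.neg⟩⟩

end Pool.Agent.Results.MP_114ef8_mp.Critical
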